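import Pool.Agent.Q20.BZ.Stmts

set_option autoImplicit false

open Polynomial Filter Topology
open scoped Classical

namespace Pool.Agent.Q16.BZ

open Pool.Agent.Q20.BZ

theorem natDegree_pol_le {R : Type} [CommRing R] {k : ℕ} (a : Fin (k + 1) → R) :
    (pol a).natDegree ≤ k := by
  unfold pol
  refine natDegree_sum_le_of_forall_le _ _ fun i _ => (natDegree_C_mul_X_pow_le _ _).trans ?_
  omega

theorem coeff_pol {R : Type} [CommRing R] {k : ℕ} (a : Fin (k + 1) → R) (i : Fin (k + 1)) :
    (pol a).coeff i = a i := by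
  unfold pol
  rw [finsetSum_coeff, Finset.sum_eq_single i]
  · simp
  · intro j _ hj
    rw [coeff_C_mul_X_pow]
    split_ifs with h
    · exact absurd (Fin.ext h.symm) hj
    · rfl
  · simp

theorem roots : TaskRoots := by
  intro m n x hm hn hlast
  set κ : ℤ →+* ℂ := Int.castRingHom ℂ with hκ
  set f₀ : ℂ[X] := (pol x.1).map κ with hf₀
  set g₀ : ℂ[X] := (pol x.2).map κ with hg₀
  set a : ℤ := x.2 (Fin.last n) with ha
  have hinj : Function.Injective κ := Int.cast_injective
  have hac : (a : ℂ) ≠ 0 := by exact_mod_cast hlast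
  have hg₀c : g₀.coeff n = (a : ℂ) := by
    rw [hg₀, coeff_map]
    have := coeff_pol x.2 (Fin.last n)
    rw [Fin.val_last] at this
    rw [this]
    simp [hκ, ha]
  have hg₀d : g₀.natDegree = n := by
    apply le_antisymm
    · exact natDegree_map_le.trans (natDegree_pol_le _)
    · apply le_natDegree_of_ne_zero
      rw [hg₀c]
      exact hac
  have hg₀l : g₀.leadingCoeff = (a : ℂ) := by
    rw [leadingCoeff, hg₀d, hg₀c]
  have hf₀d : f₀.natDegree ≤ m := natDegree_map_le.trans (natDegree_pol_le _)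
  have hcomm : (mapRingHom κ).comp (C : ℤ →+* ℤ[X]) = (C : ℂ →+* ℂ[X]).comp κ := by
    ext; simp
  have e1 : (Rx x).map κ = resultant (f₀.map (C : ℂ →+* ℂ[X]) + C (X : ℂ[X])) (g₀.map C) m n := by
    unfold Rx
    rw [← coe_mapRingHom, ← resultant_map_map]
    rw [Polynomial.map_add, Polynomial.map_map, Polynomial.map_map, hcomm, ← Polynomial.map_map,
      ← Polynomial.map_map, Polynomial.map_C, coe_mapRingHom, Polynomial.map_X]
  have hCinj : Function.Injective (C : ℂ →+* ℂ[X]) := C_injective
  have hGd : (g₀.map (C : ℂ →+* ℂ[X])).natDegree = n := by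
    rw [natDegree_map_eq_of_injective hCinj, hg₀d]
  have hs : g₀.Splits := IsAlgClosed.splits g₀
  have hFd : (f₀.map (C : ℂ →+* ℂ[X]) + C (X : ℂ[X])).natDegree ≤ m := by
    refine (natDegree_add_le _ _).trans (max_le ?_ ?_)
    · exact natDegree_map_le.trans hf₀d
    · rw [natDegree_C]; omega
  have e2 : resultant (g₀.map C) (f₀.map (C : ℂ →+* ℂ[X]) + C (X : ℂ[X])) n m =
      C ((a : ℂ) ^ m) * (g₀.roots.map fun z => X + C (eval z f₀)).prod := by
    have h1 := resultant_eq_prod_eval (g₀.map C) (f₀.map (C : ℂ →+* ℂ[X]) + C (X : ℂ[X])) m hFd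
      (hs.map C)
    rw [hGd] at h1
    rw [h1, leadingCoeff_map_of_injective hCinj, hg₀l, hs.roots_map_of_injective hCinj, Multiset.map_map, C_pow]
    congr 2
    apply Multiset.map_congr rfl
    intro z _
    simp only [Function.comp_apply, eval_add, eval_C, eval_map]
    rw [eval₂_at_apply, add_comm]
  set ε : ℂ := (-1) ^ (m * n) * (a : ℂ) ^ m with hε
  have hε0 : ε ≠ 0 := by
    rw [hε]
    exact mul_ne_zero (pow_ne_zero _ (by norm_num)) (pow_ne_zero _ hac)
  have haev : ∀ z : ℂ, aeval z (pol x.1) = eval z f₀ := by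
    intro z
    rw [hf₀, eval_map, aeval_def]
    rfl
  have e3 : (Rx x).map κ = C ε * (g₀.roots.map fun z => X + C (aeval z (pol x.1))).prod := by
    rw [e1, resultant_comm, e2, ← mul_assoc]
    congr 1
    · rw [hε, C_mul, C_pow, C_pow, C_neg, C_1]
    · simp_rw [haev]
  have hcard : Multiset.card g₀.roots = n := by
    rw [← hs.natDegree_eq_card_roots, hg₀d]
  have hmon : ((g₀.roots.map fun z => X + C (aeval z (pol x.1))).prod).Monic :=
    monic_multiset_prod_of_monic _ _ fun z _ => monic_X_add_C _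
  have hnd : ((g₀.roots.map fun z => X + C (aeval z (pol x.1))).prod).natDegree = n := by
    rw [natDegree_multiset_prod_of_monic]
    · rw [Multiset.map_map]
      simp only [Function.comp_def, natDegree_X_add_C, Multiset.map_const', Multiset.sum_replicate,
        smul_eq_mul, mul_one]
      exact hcard
    · intro p hp
      obtain ⟨z, _, rfl⟩ := Multiset.mem_map.1 hp
      exact monic_X_add_C _
  refine ⟨⟨ε, hε0, e3⟩, ?_, ?_⟩
  · rw [← natDegree_map_eq_of_injective hinj (Rx x), e3, natDegree_C_mul hε0, hnd]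
  · have h1 : κ (Rx x).leadingCoeff = ε := by
      rw [← leadingCoeff_map_of_injective hinj, e3, leadingCoeff_mul, leadingCoeff_C,
        hmon.leadingCoeff, mul_one]
    have h2 : (Rx x).leadingCoeff = (-1) ^ (m * n) * a ^ m := by
      apply hinj
      rw [h1, hε]
      simp [hκ]
    rw [h2, Int.natAbs_mul, Int.natAbs_pow, Int.natAbs_pow]
    simp

end Pool.Agent.Q16.BZ
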